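import Pool.Agent.Run7.h528.MB.SaFull

/-!
Semiampleness of rational nef classes on varieties with an abelian group of automorphisms of rank
`ρ - k` and `k` invariant blocks of divisor classes.
-/

set_option autoImplicit false

open FF Pool.Agent.W602.GT Pool.Agent.Y172 Pool.Agent.R887 Pool.Agent.N110 Pool.Agent.N110.CC
open Run7.h528.MB

/-- Let `X` be a normal projective variety of dimension `n ≥ 1`, with generic point `y`. Let the
vectors `c P` be the classes of the prime divisors in `N¹(X) = ℤ ^ ρ` (if `X` is `ℚ`-factorial, for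
instance smooth, then `ρ` is the Picard number of `X`). Let `ℤ ^ r`, `r ≥ 1`, act on `X` by
automorphisms `f_v`, given by the automorphisms `φ v = f_v^*` of the function field, and suppose
that `f_v` has positive entropy (the first dynamical degree is greater than `1`) for all `v ≠ 0`.
Suppose that `N¹(X)` contains with finite index a direct sum `Λ_1 ⊕ … ⊕ Λ_k` of groups of rank at
least `2` such that `f_v^*` maps each `Λ_i` into itself, and that `r = ρ - k`. (The classes `u j`
are a basis of the sum, and `u j` is in `Λ_i` for `i = β j`.) The support of a class is the set of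
the `i` such that its component in `Λ_i ⊗ ℝ` is not zero. Then the canonical divisor of `X` is
numerically trivial, and there are rational nef classes `e_1, …, e_k`, `e_i` being a nonzero
element of `Λ_i ⊗ ℝ`, such that for every rational nef class `x`, `s` being its support:

* for some `t ≥ 1` the classes `t x - ∑ e_i` and `t ∑ e_i - x`, with the sum over the `i` in `s`,
  are nef. So `x` and the sum are zero on the same curves, and if they are pull backs of ample
  classes by morphisms with connected fibres, then the morphisms are the same: such morphisms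
  belong to at most `2 ^ k` sets `s`, and every such morphism is determined by its set `s`;
* `x` is semiample (a pull back of an ample class) if and only if this sum is, and therefore if the
  `e_i`, `i` in `s`, are;
* if `s` contains all `i`, then `x` is ample: it is in the interior of the nef cone, and it is
  semiample.

So all rational nef classes of `X` are semiample if and only if `e_1, …, e_k` are. -/
theorem Pool.Agent.Results.MP_cfacaa_ag.InvariantBlocks.result
    {K : Type} [Field K] [Algebra ℂ K] {N n r k ρ : ℕ} {y : Fin (N + 1) → K} (hy : NormalModel y)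
    (hn : Algebra.trdeg ℂ K = n) (hn0 : 0 < n) (hr : 0 < r)
    {c : Place ℂ K → Fin ρ → ℤ} (hc : PicardBasis y c)
    {φ : (Fin r → ℤ) → (K ≃ₐ[ℂ] K)} (hφ : ∀ u v, φ (u + v) = φ u * φ v)
    (haut : ∀ v, IsAut (φ v) y) (hent : ∀ v, v ≠ 0 → 1 < dynDegree (φ v) y n 1)
    {u : Fin ρ → Fin ρ → ℤ} (hu : LinearIndependent ℝ (fun j i => (u j i : ℝ)))
    {β : Fin ρ → Fin k} (hβ : ∀ i, ∃ j j', j ≠ j' ∧ β j = i ∧ β j' = i) (hρ : ρ = r + k)
    (hbl : ∀ v, PreservesBlocks y c u β (φ v)) :
    (∀ (x : Fin n → K) (E : Fin n → Derivation ℂ K K) (κ : Place ℂ K → ℤ), Can y x E κ →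
      divClass y c κ = 0) ∧
    ∃ e : Fin k → Fin ρ → ℚ,
      (∀ i, (fun j => (e i j : ℝ)) ∈ nefCone y n c ∧
        IsBlockSupport u β (fun j => (e i j : ℝ)) {i}) ∧
      (∀ x : Fin ρ → ℚ, (fun j => (x j : ℝ)) ∈ nefCone y n c →
        ∃ s, IsBlockSupport u β (fun j => (x j : ℝ)) s ∧
          (∃ t : ℕ, 1 ≤ t ∧
            ((t : ℝ) • fun j => (x j : ℝ)) - ∑ i ∈ s, (fun j => (e i j : ℝ)) ∈ nefCone y n c ∧
            ((t : ℝ) • ∑ i ∈ s, fun j => (e i j : ℝ)) - (fun j => (x j : ℝ)) ∈ nefCone y n c) ∧
          (SemiampleClass y n c (fun j => (x j : ℝ)) ↔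
            SemiampleClass y n c (∑ i ∈ s, fun j => (e i j : ℝ))) ∧
          ((∀ i ∈ s, SemiampleClass y n c (fun j => (e i j : ℝ))) →
            SemiampleClass y n c (fun j => (x j : ℝ))) ∧
          (s = Finset.univ → (fun j => (x j : ℝ)) ∈ interior (nefCone y n c) ∧
            SemiampleClass y n c (fun j => (x j : ℝ)))) ∧
      ((∀ x : Fin ρ → ℚ, (fun j => (x j : ℝ)) ∈ nefCone y n c →
          SemiampleClass y n c (fun j => (x j : ℝ))) ↔
        ∀ i, SemiampleClass y n c (fun j => (e i j : ℝ))) := by
  obtain ⟨e, he, h⟩ := core hy hn hn0 hr hc hφ haut hent hu hβ hρ hbl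
  choose q hq using fun i => isRat_divClass (c := c) (he i).1
  have hq' : ∀ i, divClass y c (e i) = fun j => (q i j : ℝ) := hq
  simp only [hq'] at he h
  refine ⟨fun x E κ hκ => can_zeroB hy hn hn0 hr hc hφ (fun v => isAut_psM hy (haut v)) hent hu hβ
    hρ hbl hκ, q, fun i => (he i).2, fun x hn => ?_,
    fun h1 i => h1 _ (he i).2.1, fun h1 x hn => ?_⟩
  · obtain ⟨s, h1, h2, h3, h4, h5, -⟩ := h _ ⟨x, rfl⟩ hn
    exact ⟨s, h1, h2, h3, h4, h5⟩
  obtain ⟨s, -, -, -, h2, -, -⟩ := h _ ⟨x, rfl⟩ hn
  exact h2 fun i _ => h1 i
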