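import Pool.Agent.Run7.h528.NR.FinalD
import Pool.Agent.Run7.h528.NN.Log
import Pool.Agent.Run7.h528.NR.Term

/-!
Nef classes which are invariant under a nilpotent group of birational self-maps of a Calabi-Yau
manifold: a bound for the numerical dimension by the rank of the group modulo the elements of zero
entropy, and abundance.
-/

set_option autoImplicit false

open FF Pool.Agent.W602.GT Pool.Agent.Y172 Pool.Agent.R887 Pool.Agent.N110 Pool.Agent.N110.DV
open Run7.h528.NR Run7.h528.NN

/-- Let `X` be a Calabi-Yau manifold of dimension `n ≥ 1`, with generic point `y`; more generally let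
`X` be a normal projective variety with terminal singularities and nef canonical divisor. By the
theorem of Néron and Severi the group of the divisors on `X` modulo numerical equivalence is finitely
generated; this is the hypothesis `hN`. Let `G` be any nilpotent group of birational self-maps of `X`
(not necessarily abelian or finitely generated), given by a group of automorphisms of the function
field. Then the elements of `G` are isomorphisms in codimension one, those with first dynamical
degree at most `1` form a normal subgroup `N`, and `G / N` is a free abelian group of finite rank `ρ`,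
where `ρ ≤ n - 1`: there is a surjective homomorphism `Φ` from `G` onto `ℤ ^ ρ` with kernel `N`.

Let `ρ ≥ 1` and let `L` be a `ℚ`-divisor on `X` whose class is invariant under `G` (the divisors
`L - g^* L` are pseudo-effective for all `g` in `G`, so that they are numerically trivial). Then the
numerical dimension and the Iitaka dimension of `L` are at most `n - 1 - ρ`, and they are equal if the
Iitaka dimension is at least `n - 1 - ρ`; if `X` is a Calabi-Yau manifold and `L` is nef, then `L` is
semiample in this case, by a theorem of Kawamata which is not formalised here. If `ρ = n - 1` and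
`L` is nef, then `L` is numerically trivial, whatever the irregularity of `X` is; more generally, every
pseudo-effective `L` is numerically equivalent to exactly one effective `ℚ`-divisor in this case. If
moreover `L` is nef and the irregularity of `X` is zero, then `L` is torsion: `m L` is the divisor of a
rational function for some `m ≥ 1`. -/
theorem Pool.Agent.Results.MP_cfacaa_ag.NilpotentInvariantClass.result
    {K : Type} [Field K] [Algebra ℂ K] {N n : ℕ} {y : Fin (N + 1) → K} (hy : NormalModel y)
    (hn : Algebra.trdeg ℂ K = n) (hn0 : 0 < n) (hN : NeronSeveri y) (hT : TerminalPair y n 0)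
    (hnef : LogNef y n 0) (G : Subgroup (K ≃ₐ[ℂ] K)) (hnil : Group.IsNilpotent G) :
    (∀ g ∈ G, PseudoAut g y) ∧
    ∃ (ρ : ℕ) (Φ : G →* Multiplicative (Fin ρ → ℤ)), Function.Surjective Φ ∧
      (∀ g : G, Φ g = 1 ↔ dynDegree (g : K ≃ₐ[ℂ] K) y n 1 ≤ 1) ∧ ρ < n ∧
      (0 < ρ → ∀ L : Place ℂ K → ℚ, {P | IsPrimeDivisor y P ∧ L P ≠ 0}.Finite →
        (∀ g ∈ G, ClassLe g y L) → NuLt y n L (n - ρ) ∧ ¬ IitakaGe y L (n - ρ) ∧
        (IitakaGe y L (n - ρ - 1) → AbundantD y n L) ∧
        (ρ + 1 = n → NefD y n L → NumEqD y L 0) ∧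
        (ρ + 1 = n → CC.PsefD y L → ∃ D : Place ℂ K → ℚ, Effective y D ∧ NumEqD y L D ∧
          ∀ D', Effective y D' → NumEqD y L D' → ∀ P, IsPrimeDivisor y P → D' P = D P) ∧
        (ρ + 1 = n → NefD y n L → IrregularityZero y → ∃ m : ℕ, 1 ≤ m ∧ ∃ g : K, g ≠ 0 ∧
          ∀ P, IsPrimeDivisor y P → (P.ord g : ℚ) = m * L P)) := by
  have hz : ∀ P : Place ℂ K, IsPrimeDivisor y P → (0 : ℚ) ≤ (0 : Place ℂ K → ℚ) P :=
    fun _ _ => le_rfl
  have hiso : ∀ g ∈ G, PseudoAut g y := fun g _ =>
    pseudo_of_terminal hy hn hz hT hnef (pullLe_terminal hy hn hT g)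
      (pullLe_terminal hy hn hT g.symm)
  obtain ⟨ρ, Φ, h1, h2, h3, h4⟩ := struct_mainD hy hn hn0 hN G hnil hiso
  refine ⟨hiso, ρ, Φ, h1, h2, h3, fun hρ L hL hcl => ?_⟩
  have h5 := h4 L hL hcl hρ
  refine ⟨h5, iitaka_lt hy hn (Nat.sub_le _ _) h5, fun h => ⟨n - ρ - 1, h, ?_⟩, fun h6 hLn => ?_,
    fun h6 hps => ?_, fun h6 hLn hq => ?_⟩
  · rwa [show n - ρ - 1 + 1 = n - ρ by omega]
  · rw [show n - ρ = 1 by omega] at h5
    exact nefD_trivial hy hn hn0 hN hL hLn h5
  · rw [show n - ρ = 1 by omega] at h5
    obtain ⟨ρ', cl, hcl'⟩ := hN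
    obtain ⟨D, hD, hE, hu, -⟩ := num_effD hy hn hn0 hcl' hL hps h5
    exact ⟨D, hD, hE, hu⟩
  · rw [show n - ρ = 1 by omega] at h5
    obtain ⟨m, hm, g, hg0, hg⟩ := trivialD hy hn hn0 hL hq hLn h5
    refine ⟨m, hm, g⁻¹, inv_ne_zero hg0, fun P hP => ?_⟩
    have h4 := hg P hP
    rw [P.ord_inv]
    push_cast
    linarith
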